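import Pool.Agent.helper19.QP.SpecM

/-!
# Row qm:REL (MP_ebc808_nt): a separable relation between `F` and `F(X ^ 3)`
-/

set_option autoImplicit false

open Polynomial Pool.Agent.helper7.IG

noncomputable section

namespace Pool.Agent.QP

/-- squares of polynomials in characteristic 2 -/
theorem REL_sq {R : Type} [CommRing R] [CharP R 2] (f : R[X]) (n : ℕ) :
    (f ^ 2).coeff n = if 2 ∣ n then (f.coeff (n / 2)) ^ 2 else 0 := by
  have : ExpChar R 2 := ExpChar.prime Nat.prime_two
  rw [← map_frobenius_expand, coeff_map, coeff_expand (by norm_num)]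
  split_ifs
  · rfl
  · exact map_zero _

/-- a polynomial in two variables with given coefficients -/
theorem REL_mk (c : ℕ → ℕ → kk) (a b : ℕ) (hc : ∀ i j, a < i ∨ b < j → c i j = 0) :
    ∃ A : Polynomial (Polynomial kk), (∀ i j, (A.coeff i).coeff j = c i j) ∧ A.natDegree ≤ a ∧
      ∀ i, (A.coeff i).natDegree ≤ b := by
  have hin : ∀ i, ∃ p : kk[X], (∀ j, p.coeff j = c i j) ∧ p.natDegree ≤ b ∧ (a < i → p = 0) := by
    intro i
    have h1 : ∀ j, (∑ k ∈ Finset.range (b + 1), monomial k (c i k)).coeff j = c i j := by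
      intro j
      rw [finsetSum_coeff]
      simp only [coeff_monomial]
      rw [Finset.sum_ite_eq' (Finset.range (b + 1)) j]
      split_ifs with h
      · rfl
      · rw [Finset.mem_range] at h
        exact (hc i j (Or.inr (by omega))).symm
    refine ⟨_, h1, ?_, ?_⟩
    · rw [natDegree_le_iff_coeff_eq_zero]
      intro N hN
      rw [h1]
      exact hc i N (Or.inr hN)
    · intro hi
      ext j
      rw [h1, coeff_zero]
      exact hc i j (Or.inl hi)
  choose p hp1 hp2 hp3 using hin
  have h1 : ∀ i, (∑ k ∈ Finset.range (a + 1), monomial k (p k)).coeff i = p i := by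
    intro i
    rw [finsetSum_coeff]
    simp only [coeff_monomial]
    rw [Finset.sum_ite_eq' (Finset.range (a + 1)) i]
    split_ifs with h
    · rfl
    · rw [Finset.mem_range] at h
      exact (hp3 i (by omega)).symm
  refine ⟨∑ k ∈ Finset.range (a + 1), monomial k (p k), fun i j => ?_, ?_, fun i => ?_⟩
  · rw [h1, hp1]
  · rw [natDegree_le_iff_coeff_eq_zero]
    intro N hN
    rw [h1]
    exact hp3 N hN
  · rw [h1]
    exact hp2 i

/-- a polynomial with zero derivative is `A ^ 2 + y B ^ 2` -/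
theorem REL_dec (G : Polynomial (Polynomial kk)) (a b : ℕ) (ha : G.natDegree ≤ a)
    (hb : ∀ i, (G.coeff i).natDegree ≤ b) (hG : derivative G = 0) :
    ∃ A B : Polynomial (Polynomial kk), G = A ^ 2 + C X * B ^ 2 ∧ A.natDegree ≤ a / 2 ∧
      B.natDegree ≤ a / 2 ∧ (∀ i, (A.coeff i).natDegree ≤ b / 2) ∧ ∀ i, (B.coeff i).natDegree ≤ b / 2 := by
  have hchk : CharP kk 2 := charP_of_injective_algebraMap (algebraMap (ZMod 2) kk).injective 2
  have hrt : ∀ c : kk, ∃ z : kk, z ^ 2 = c := fun c => IsAlgClosed.exists_pow_nat_eq c (by norm_num)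
  choose rt hrt using hrt
  have hrt0 : rt 0 = 0 := by
    have h := hrt 0
    exact pow_eq_zero_iff (two_ne_zero) |>.1 h
  have hodd : ∀ n, ¬ 2 ∣ n → G.coeff n = 0 := by
    intro n hn
    have h1 := expand_contract 2 hG (by norm_num)
    rw [← h1, coeff_expand (by norm_num), if_neg hn]
  have hz : ∀ i j, a < i ∨ b < j → (G.coeff i).coeff j = 0 := by
    intro i j h
    rcases h with h | h
    · rw [coeff_eq_zero_of_natDegree_lt (lt_of_le_of_lt ha h), coeff_zero]
    · exact coeff_eq_zero_of_natDegree_lt (lt_of_le_of_lt (hb i) h)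
  obtain ⟨A, hA1, hA2, hA3⟩ := REL_mk (fun i j => rt ((G.coeff (2 * i)).coeff (2 * j))) (a / 2) (b / 2)
    (fun i j h => by
      rw [hz (2 * i) (2 * j) (by omega), hrt0])
  obtain ⟨B, hB1, hB2, hB3⟩ := REL_mk (fun i j => rt ((G.coeff (2 * i)).coeff (2 * j + 1))) (a / 2) (b / 2)
    (fun i j h => by
      rw [hz (2 * i) (2 * j + 1) (by omega), hrt0])
  refine ⟨A, B, ?_, hA2, hB2, hA3, hB3⟩
  ext n m
  rw [coeff_add, coeff_C_mul, REL_sq A n, REL_sq B n]
  by_cases hn : 2 ∣ n
  · rw [if_pos hn, if_pos hn]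
    obtain ⟨k, rfl⟩ := hn
    rw [Nat.mul_div_cancel_left k (by norm_num : 0 < 2), coeff_add, REL_sq (A.coeff k) m]
    rcases Nat.even_or_odd' m with ⟨r, rfl | rfl⟩
    · rw [if_pos (dvd_mul_right 2 r), Nat.mul_div_cancel_left r (by norm_num : 0 < 2), hA1, hrt]
      have h0 : (X * (B.coeff k) ^ 2).coeff (2 * r) = 0 := by
        rcases r with _ | r
        · exact coeff_X_mul_zero _
        · have e : 2 * (r + 1) = (2 * r + 1) + 1 := by ring
          rw [e, coeff_X_mul, REL_sq, if_neg (by omega)]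
      rw [h0, add_zero]
    · rw [if_neg (by omega), coeff_X_mul, REL_sq, if_pos (dvd_mul_right 2 r),
        Nat.mul_div_cancel_left r (by norm_num : 0 < 2), hB1, hrt, zero_add]
  · rw [if_neg hn, if_neg hn, mul_zero, add_zero, hodd n hn]

/-- squares of Laurent series have only even exponents -/
theorem REL_ev (z : LL) (n : ℤ) (hn : Odd n) : (z ^ 2).coeff n = 0 := by
  have hch : CharP kk 2 := charP_of_injective_algebraMap (algebraMap (ZMod 2) kk).injective 2
  rw [pow_two, HahnSeries.coeff_mul]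
  refine Finset.sum_involution (fun p _ => (p.2, p.1)) ?_ ?_ ?_ ?_
  · intro p _
    rw [mul_comm (z.coeff p.2) (z.coeff p.1)]
    exact CharTwo.add_self_eq_zero _
  · intro p hp _ h
    rw [Finset.mem_antidiagonal] at hp
    have h1 : p.2 = p.1 := congrArg Prod.fst h
    have h2 := hp.2.2
    rw [h1] at h2
    obtain ⟨k, hk⟩ := hn
    omega
  · intro p hp
    rw [Finset.mem_antidiagonal] at hp ⊢
    exact ⟨hp.2.1, hp.1, by rw [add_comm]; exact hp.2.2⟩
  · intro p _
    rfl

theorem REL_add (G H : Polynomial (Polynomial kk)) (x y : LL) : ev2 (G + H) x y = ev2 G x y + ev2 H x y :=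
  eval₂_add _ _

theorem REL_mul (G H : Polynomial (Polynomial kk)) (x y : LL) : ev2 (G * H) x y = ev2 G x y * ev2 H x y :=
  eval₂_mul _ _

theorem REL_pow (G : Polynomial (Polynomial kk)) (x y : LL) (n : ℕ) : ev2 (G ^ n) x y = ev2 G x y ^ n :=
  eval₂_pow _ _ _

theorem REL_CX (x y : LL) : ev2 (C X) x y = y := by
  unfold ev2
  rw [eval₂_C]
  exact aeval_X y

theorem REL_CC (c : kk) (x y : LL) : ev2 (C (C c)) x y = algebraMap kk LL c := by
  unfold ev2
  rw [eval₂_C]
  exact aeval_C y c

theorem REL (hREA : REA_stmt) (hME : ME_stmt) : REL_stmt := by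
  intro F hF hodd
  have hF2 : sig 3 1 F ∈ MM := hME 3 1 F (by decide) hF
  obtain ⟨G₀, hG₀, hG₀'⟩ := hREA F (sig 3 1 F) hF hF2
  set y : LL := sig 3 1 F with hy
  classical
  -- the relations of bounded degrees
  let P : ℕ → Prop := fun n => ∃ (a b : ℕ) (G : Polynomial (Polynomial kk)), a + b = n ∧ G ≠ 0 ∧
    ev2 G F y = 0 ∧ G.natDegree ≤ a ∧ ∀ i, (G.coeff i).natDegree ≤ b
  have hex : ∃ n, P n := by
    refine ⟨_, G₀.natDegree, G₀.support.sup (fun i => (G₀.coeff i).natDegree), G₀, rfl, hG₀, hG₀', le_rfl, ?_⟩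
    intro i
    by_cases hi : i ∈ G₀.support
    · exact Finset.le_sup (f := fun i => (G₀.coeff i).natDegree) hi
    · rw [notMem_support_iff.1 hi, natDegree_zero]
      exact Nat.zero_le _
  obtain ⟨a, b, G, hab, hG, hG0, hGa, hGb⟩ := Nat.find_spec hex
  have hmin : ∀ (a' b' : ℕ) (G' : Polynomial (Polynomial kk)), a' + b' < a + b → ev2 G' F y = 0 →
      G'.natDegree ≤ a' → (∀ i, (G'.coeff i).natDegree ≤ b') → G' = 0 := by
    intro a' b' G' hlt h1 h2 h3
    by_contra hne
    exact Nat.find_min hex (hab ▸ hlt) ⟨a', b', G', rfl, hne, h1, h2, h3⟩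
  refine ⟨G, hG0, fun hder => ?_⟩
  by_cases hd : derivative G = 0
  · -- `a + b > 0`
    have hpos : 0 < a + b := by
      by_contra h0
      have ha0 : a = 0 := by omega
      have hb0 : b = 0 := by omega
      subst ha0
      subst hb0
      have e1 : G = C (G.coeff 0) := eq_C_of_natDegree_le_zero hGa
      have e2 : G.coeff 0 = C ((G.coeff 0).coeff 0) := eq_C_of_natDegree_le_zero (hGb 0)
      rw [e2] at e1
      have h1 : ev2 G F y = algebraMap kk LL ((G.coeff 0).coeff 0) := by
        conv_lhs => rw [e1]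
        exact REL_CC _ _ _
      rw [h1] at hG0
      have h2 : (G.coeff 0).coeff 0 = 0 := (algebraMap kk LL).injective (by rw [hG0, map_zero])
      rw [h2, C_0, C_0] at e1
      exact hG e1
    obtain ⟨A, B, hGAB, hA, hB, hA', hB'⟩ := REL_dec G a b hGa hGb hd
    have h1 : ev2 A F y ^ 2 + y * ev2 B F y ^ 2 = 0 := by
      rw [← hG0]
      conv_rhs => rw [hGAB]
      rw [REL_add, REL_mul, REL_pow, REL_pow, REL_CX]
    have hch : CharP LL 2 := charP_of_injective_algebraMap (algebraMap kk LL).injective 2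
    have hB0 : ev2 B F y = 0 := by
      by_contra hne
      have h2 : y = (ev2 A F y / ev2 B F y) ^ 2 := by
        rw [div_pow, eq_div_iff (pow_ne_zero 2 hne)]
        have h3 := eq_neg_of_add_eq_zero_right h1
        rw [h3, CharTwo.neg_eq]
      obtain ⟨n, hn, hFn⟩ := hodd
      have h3 : y.coeff (3 * n) = F.coeff n := by
        have := sig_coeff_mul (e := 3) (by norm_num) 1 F n
        rw [one_zpow, Units.val_one, one_mul] at this
        exact this
      have h4 := REL_ev (ev2 A F y / ev2 B F y) (3 * n) (by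
        obtain ⟨k, hk⟩ := hn
        exact ⟨3 * k + 1, by rw [hk]; ring⟩)
      rw [← h2, h3] at h4
      exact hFn h4
    have hA0 : ev2 A F y = 0 := by
      rw [hB0] at h1
      have h2 : ev2 A F y ^ 2 = 0 := by
        rw [← h1]
        ring
      exact pow_eq_zero_iff (two_ne_zero) |>.1 h2
    have hlt : a / 2 + b / 2 < a + b := by omega
    have eA := hmin (a / 2) (b / 2) A hlt hA0 hA hA'
    have eB := hmin (a / 2) (b / 2) B hlt hB0 hB hB'
    apply hG
    rw [hGAB, eA, eB]
    ring
  · -- the derivative is a smaller relation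
    have ha : G.natDegree ≠ 0 := by
      intro h0
      apply hd
      rw [eq_C_of_natDegree_le_zero (le_of_eq h0), derivative_C]
    have h1 : (derivative G).natDegree ≤ a - 1 :=
      (natDegree_derivative_le G).trans (Nat.sub_le_sub_right hGa 1)
    have h2 : ∀ i, ((derivative G).coeff i).natDegree ≤ b := by
      intro i
      rw [coeff_derivative]
      have e : (G.coeff (i + 1)) * ((i : kk[X]) + 1) = (G.coeff (i + 1)) * C ((i : kk) + 1) := by
        rw [C_add, C_1, map_natCast]
      rw [e]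
      exact (natDegree_mul_C_le _ _).trans (hGb (i + 1))
    exact hd (hmin (a - 1) b _ (by omega) hder h1 h2)

end Pool.Agent.QP
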